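import Mathlib

set_option autoImplicit false

namespace Pool.Agent.Results.MP_df6457_lc.Counter

section
variable {A : Type}

/-- factorial, transitive and rational -/
def FTR (L : Language A) : Prop :=
  (∀ x u y : List A, x ++ u ++ y ∈ L → u ∈ L) ∧ (∀ u ∈ L, ∀ v ∈ L, ∃ w, u ++ w ++ v ∈ L) ∧ L.IsRegular

def IsSubmonoid (M : Set (List A)) : Prop := [] ∈ M ∧ ∀ u ∈ M, ∀ v ∈ M, u ++ v ∈ M

/-- the minimal generating set -/
def gens (M : Set (List A)) : Set (List A) :=
  {w | w ∈ M ∧ w ≠ [] ∧ ¬ ∃ u ∈ M, ∃ v ∈ M, u ≠ [] ∧ v ≠ [] ∧ w = u ++ v}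

/-- free submonoid: unique factorisation over the minimal generating set -/
def Free (M : Set (List A)) : Prop :=
  IsSubmonoid M ∧ ∀ w ∈ M, ∃! l : List (List A), (∀ x ∈ l, x ∈ gens M) ∧ l.flatten = w

def MaxFree (L : Language A) (M : Set (List A)) : Prop :=
  Free M ∧ M ⊆ L ∧ ∀ N, Free N → M ⊆ N → N ⊆ L → N = M

def Stable (M : Set (List A)) : Prop := ∀ x y w, x ∈ M → y ∈ M → x ++ w ∈ M → w ++ y ∈ M → w ∈ M

lemma flat_mem {M : Set (List A)} (h : IsSubmonoid M) : ∀ l : List (List A), (∀ x ∈ l, x ∈ M) → l.flatten ∈ M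
  | [], _ => h.1
  | x :: l, hl => h.2 _ (hl x (.head _)) _ (flat_mem h l fun y hy => hl y (.tail _ hy))

lemma Free.stable {M : Set (List A)} (h : Free M) : Stable M := by
  intro x y w hx hy h1 h2
  obtain ⟨a, ⟨a1, rfl⟩, -⟩ := h.2 x hx
  obtain ⟨b, ⟨b1, rfl⟩, -⟩ := h.2 y hy
  obtain ⟨c, ⟨c1, c2⟩, -⟩ := h.2 _ h1
  obtain ⟨d, ⟨d1, d2⟩, -⟩ := h.2 _ h2
  have := (h.2 _ (h.1.2 _ hx _ h2)).unique (y₁ := a ++ d) (y₂ := c ++ b)
    ⟨fun x hx => (List.mem_append.1 hx).elim (a1 x) (d1 x), by simp [d2]⟩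
    ⟨fun x hx => (List.mem_append.1 hx).elim (c1 x) (b1 x), by simp [c2]⟩
  rcases List.append_eq_append_iff.1 this with ⟨r, rfl, -⟩ | ⟨r, rfl, -⟩
  · obtain rfl : r.flatten = w := by simpa using c2
    exact flat_mem h.1 r fun x hx => (c1 x (List.mem_append_right _ hx)).1
  · have := congrArg List.length c2
    obtain rfl : w = [] := List.eq_nil_of_length_eq_zero (by simp only [List.flatten_append, List.length_append] at this; omega)
    exact h.1.1

lemma free_of {M : Set (List A)} (h : IsSubmonoid M) (hs : Stable M) : Free M := by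
  have ex : ∀ n, ∀ w ∈ M, w.length = n → ∃ l : List (List A), (∀ x ∈ l, x ∈ gens M) ∧ l.flatten = w := by
    intro n
    induction n using Nat.strong_induction_on with
    | _ n ih =>
      intro w hw hn
      by_cases h0 : w = []
      · exact ⟨[], by simp, h0.symm⟩
      by_cases h1 : ∃ u ∈ M, ∃ v ∈ M, u ≠ [] ∧ v ≠ [] ∧ w = u ++ v
      · obtain ⟨u, hu, v, hv, a, b, rfl⟩ := h1
        have := List.length_pos_iff.2 a
        have := List.length_pos_iff.2 b
        rw [List.length_append] at hn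
        obtain ⟨l, c, rfl⟩ := ih _ (by omega) u hu rfl
        obtain ⟨m, d, rfl⟩ := ih _ (by omega) v hv rfl
        exact ⟨l ++ m, fun x hx => (List.mem_append.1 hx).elim (c x) (d x), by simp⟩
      · exact ⟨[w], by simpa using ⟨hw, h0, h1⟩, by simp⟩
  have un : ∀ l m : List (List A), (∀ x ∈ l, x ∈ gens M) → (∀ x ∈ m, x ∈ gens M) → l.flatten = m.flatten → l = m := by
    intro l
    induction l with
    | nil =>
      rintro (_ | ⟨y, m⟩) - b e
      · rfl
      · exact absurd (List.append_eq_nil_iff.1 e.symm).1 (b y (.head _)).2.1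
    | cons x l ih =>
      rintro (_ | ⟨y, m⟩) a b e
      · exact absurd (List.append_eq_nil_iff.1 e).1 (a x (.head _)).2.1
      have hx := a x (.head _)
      have hy := b y (.head _)
      have hl := flat_mem h l fun z hz => (a z (.tail _ hz)).1
      have hm := flat_mem h m fun z hz => (b z (.tail _ hz)).1
      obtain rfl : x = y := by
        rcases List.append_eq_append_iff.1 e with ⟨r, rfl, e'⟩ | ⟨r, rfl, e'⟩
        · by_contra hn
          exact hy.2.2 ⟨x, hx.1, r, hs _ _ _ hx.1 hm hy.1 (e' ▸ hl), hx.2.1, by rintro rfl; simp at hn, rfl⟩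
        · by_contra hn
          exact hx.2.2 ⟨y, hy.1, r, hs _ _ _ hy.1 hl hx.1 (e' ▸ hm), hy.2.1, by rintro rfl; simp at hn, rfl⟩
      rw [ih m (fun z hz => a z (.tail _ hz)) (fun z hz => b z (.tail _ hz)) (List.append_cancel_left e)]
  exact ⟨h, fun w hw => (ex _ w hw rfl).elim fun l hl => ⟨l, hl, fun m hm => un _ _ hm.1 hl.1 (hm.2.trans hl.2.symm)⟩⟩
end

def D : DFA (Fin 2) (Fin 4) := ⟨fun s x => if x = 0 then ![0, 2, 0, 3] s else ![1, 1, 3, 3] s, 0, {s | s ≠ 3}⟩

abbrev δ (s : Fin 4) (w : List (Fin 2)) := D.evalFrom s w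

lemma δ_app (s u v) : δ s (u ++ v) = δ (δ s u) v := D.evalFrom_of_append _ _ _
lemma δ_cons (s x w) : δ s (x :: w) = δ (D.step s x) w := rfl
lemma dead (w) : δ 3 w = 3 := by
  induction w with
  | nil => rfl
  | cons x w ih => rwa [δ_cons, show D.step 3 x = 3 by revert x; decide]
lemma mono (w) : ∀ s t, s = 0 ∨ s = t ∨ t = 3 → δ s w = 0 ∨ δ s w = δ t w ∨ δ t w = 3 := by
  induction w with
  | nil => exact fun _ _ h => h
  | cons x w ih => exact fun s t h => ih _ _ (by revert s t x; decide)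
lemma mem (w) : w ∈ D.accepts ↔ δ 0 w ≠ 3 := Iff.rfl

def M0 (w : List (Fin 2)) : Prop := δ 1 w = 0 ∨ δ 1 w = 1

lemma M0.app {u v} (h : M0 u) (h' : M0 v) : M0 (u ++ v) := by
  have := mono v 0 1 (.inl rfl)
  unfold M0 at *
  rw [δ_app]
  rcases h with h | h <;> rw [h] <;> omega

def N (p : ℕ) : Set (List (Fin 2)) := {w | M0 w ∧ p ∣ w.count 0}

lemma apow (n : ℕ) : M0 (List.replicate (n + 2) 0) := by
  left
  show δ 0 (List.replicate n 0) = 0
  induction n with
  | zero => rfl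
  | succ n ih => exact ih

lemma maxfree {p : ℕ} (hp : p.Prime) : MaxFree D.accepts (N p) := by
  have sub : IsSubmonoid (N p) := ⟨⟨.inr rfl, by simp⟩, fun u hu v hv =>
    ⟨hu.1.app hv.1, by rw [List.count_append]; exact dvd_add hu.2 hv.2⟩⟩
  refine ⟨free_of sub fun x y w hx hy h1 h2 => ?_, fun w hw => ?_, fun M hM h1 h2 => h1.antisymm' fun w hw => ?_⟩
  · have hc : p ∣ w.count 0 := (Nat.dvd_add_right hx.2).1 (by simpa using h1.2)
    refine ⟨?_, hc⟩
    have a1 := h1.1
    have a2 := h2.1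
    have a3 := hx.1
    have a4 := mono w 0 1 (.inl rfl)
    unfold M0 at *
    rw [δ_app] at a1 a2
    have a5 : δ 1 w ≠ 3 := fun h => by rw [h, dead] at a2; omega
    have a6 : ¬ (δ 1 w = 2 ∧ δ 0 w = 0) := by
      rintro ⟨b1, b2⟩
      rcases w with _ | ⟨x, _ | ⟨y, t⟩⟩
      · simp at b1
      · fin_cases x
        · exact hp.one_lt.ne' (by simpa using hc)
        · simp [δ, D, DFA.evalFrom] at b2
      · have := (by decide : ∀ x y, D.step (D.step 1 x) y = 3 ∨ D.step (D.step 1 x) y = D.step (D.step 0 x) y) x y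
        simp only [δ_cons] at b1 b2
        rcases this with h | h <;> rw [h] at b1
        · rw [dead] at b1; omega
        · omega
    rcases a3 with h | h <;> rw [h] at a1 <;> omega
  · have := mono w 0 1 (.inl rfl)
    have := hw.1
    unfold M0 at this
    show δ 0 w ≠ 3
    omega
  · have hb : [1] ∈ M := h1 ⟨.inr rfl, by simp⟩
    have m0 : ∀ w ∈ M, M0 w := fun w hw => by
      have : δ 0 ([1] ++ w ++ [1]) ≠ 3 := h2 (hM.1.2 _ (hM.1.2 _ hb _ hw) _ hb)
      rw [δ_app, δ_app, show δ 0 [1] = 1 from rfl] at this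
      revert this
      unfold M0
      generalize δ 1 w = s
      revert s; decide
    refine ⟨m0 w hw, by_contra fun hn => ?_⟩
    obtain ⟨j, hj⟩ : ∃ j, p ∣ j * w.count 0 + (p + 1) := by
      have := Fact.mk hp
      have : (w.count 0 : ZMod p) ≠ 0 := by rwa [Ne, ZMod.natCast_eq_zero_iff]
      refine ⟨(-(w.count 0 : ZMod p)⁻¹).val, (ZMod.natCast_eq_zero_iff _ _).1 ?_⟩
      simp [this]
    have hv : (List.replicate j w).flatten ∈ M := flat_mem hM.1 _ fun x hx => List.eq_of_mem_replicate hx ▸ hw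
    have hc : (List.replicate j w).flatten.count 0 = j * w.count 0 := by simp [List.count_flatten]
    obtain ⟨q, rfl⟩ : ∃ q, p = q + 2 := ⟨p - 2, by have := hp.two_le; omega⟩
    have z1 : List.replicate (q + 1 + 2) 0 ∈ M := hM.stable _ _ _ hv hv
      (h1 ⟨(m0 _ hv).app (apow _), by rw [List.count_append, hc]; simpa using hj⟩)
      (h1 ⟨(apow _).app (m0 _ hv), by rw [List.count_append, hc, add_comm (List.count _ _)]; simpa using hj⟩)
    have z2 : List.replicate (q + 2) 0 ∈ M := h1 ⟨apow _, by simp⟩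
    exact absurd (m0 _ (hM.stable _ _ [0] z2 z2 (by rwa [← List.replicate_succ']) z1)) (by unfold M0; decide)

theorem result : ∃ (k : ℕ) (L : Language (Fin k)), FTR L ∧ {M | MaxFree L M}.Infinite := by
  refine ⟨2, D.accepts, ⟨fun x u y h => ?_, fun u hu v hv => ⟨[0, 0], ?_⟩, ⟨_, inferInstance, D, rfl⟩⟩, ?_⟩
  · rw [mem] at *
    rw [δ_app, δ_app] at h
    have := mono u 0 (δ 0 x) (.inl rfl)
    intro h'
    rw [show δ (δ 0 x) u = 3 by omega, dead] at h
    exact h rfl
  · rw [mem] at *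
    rwa [δ_app, δ_app, show δ (δ 0 u) [0, 0] = 0 by revert hu; generalize δ 0 u = s; revert s; decide]
  · refine Set.infinite_of_injOn_mapsTo (f := N) (fun p hp q hq h => ?_) (fun p hp => maxfree hp)
      Nat.infinite_setOfPred_prime
    obtain ⟨r, rfl⟩ : ∃ r, q = r + 2 := ⟨q - 2, by have := Nat.Prime.two_le hq; omega⟩
    have : List.replicate (r + 2) 0 ∈ N p := h ▸ ⟨apow _, by simp⟩
    exact (Nat.prime_dvd_prime_iff_eq hp hq).1 (by simpa using this.2)

end Pool.Agent.Results.MP_df6457_lc.Counter
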